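import Pool.Agent.Helper60.T3.GoalsI
import Pool.Agent.Helper30.SGB.EDUP

/-!
# Project T3 (MP_a41896_nt), packet AIP: independence of a pair
-/

set_option autoImplicit false
set_option linter.unusedSectionVars false

namespace Pool.Agent.Helper14.T3.AIP

open WeierstrassCurve
open Pool.Agent.Helper29.BL Pool.Agent.Helper42.SG
open Pool.Agent.Helper60.T3

section field

variable {k L : Type} [Field k] [Field L] [Algebra k L]

/-- the elements algebraic over `k(x)` -/
noncomputable def clo (k : Type) {L : Type} [Field k] [Field L] [Algebra k L] (x : L) :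
    IntermediateField k L :=
  (algebraicClosure (IntermediateField.adjoin k {x}) L).restrictScalars k

theorem mem_clo {x z : L} : z ∈ clo k x ↔ IsAlgebraic (IntermediateField.adjoin k {x}) z :=
  mem_algebraicClosure_iff

theorem self_clo (x : L) : x ∈ clo k x := by
  rw [mem_clo]
  exact isAlgebraic_algebraMap
    (⟨x, IntermediateField.mem_adjoin_simple_self k x⟩ : IntermediateField.adjoin k {x})

theorem clo_closed {x z : L} (h : IsAlgebraic (clo k x) z) : z ∈ clo k x := by
  by_contra hn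
  rw [mem_clo] at hn
  have h1 : Transcendental (IntermediateField.adjoin k {x}) z := hn
  exact h1.algebraicClosure h

theorem pair_iff {x y : L} :
    AlgebraicIndependent k ![x, y] ↔ Transcendental k x ∧ y ∉ clo k x := by
  rw [AlgebraicIndependent.iff_transcendental_adjoin_image (1 : Fin 2)]
  have e1 : (![x, y] '' {1}ᶜ : Set L) = {x} := by
    ext z
    simp only [Set.mem_image, Set.mem_compl_iff, Set.mem_singleton_iff]
    constructor
    · rintro ⟨i, hi, rfl⟩
      fin_cases i
      · rfl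
      · exact absurd rfl hi
    · rintro rfl
      exact ⟨0, by decide, rfl⟩
  have e2 : AlgebraicIndependent k (fun j : {j : Fin 2 // j ≠ 1} => ![x, y] j) ↔
      Transcendental k x := by
    have : Subsingleton {j : Fin 2 // j ≠ 1} := by
      refine ⟨fun a b => ?_⟩
      obtain ⟨a, ha⟩ := a
      obtain ⟨b, hb⟩ := b
      apply Subtype.ext
      fin_cases a <;> fin_cases b <;> first | rfl | exact absurd rfl ha | exact absurd rfl hb
    exact algebraicIndependent_singleton_iff (⟨0, by decide⟩ : {j : Fin 2 // j ≠ 1})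
  rw [e1, e2, mem_clo, IntermediateField.isAlgebraic_adjoin_iff]
  rfl

theorem pair_swap {x y : L} (h : AlgebraicIndependent k ![x, y]) :
    AlgebraicIndependent k ![y, x] := by
  have h1 := h.comp ![1, 0] (by decide)
  have e : (![x, y] ∘ ![1, 0] : Fin 2 → L) = ![y, x] := by
    funext i
    fin_cases i <;> rfl
  rw [e] at h1
  exact h1

/-- roots of a quartic -/
theorem quartic (F : IntermediateField k L) (hF : ∀ z : L, IsAlgebraic F z → z ∈ F)
    {x c0 c1 c2 c3 : L} (h0 : c0 ∈ F) (h1 : c1 ∈ F) (h2 : c2 ∈ F) (h3 : c3 ∈ F)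
    (h : x ^ 4 + c3 * x ^ 3 + c2 * x ^ 2 + c1 * x + c0 = 0) : x ∈ F := by
  refine hF x ⟨Polynomial.X ^ 4 + Polynomial.C ⟨c3, h3⟩ * Polynomial.X ^ 3 +
    Polynomial.C ⟨c2, h2⟩ * Polynomial.X ^ 2 + Polynomial.C ⟨c1, h1⟩ * Polynomial.X +
    Polynomial.C ⟨c0, h0⟩, ?_, ?_⟩
  · intro he
    have h5 := congrArg (fun p => Polynomial.coeff p 4) he
    simp at h5
  · simpa using h

end field

section curve

variable {k L : Type} [Field k] [CharZero k] [Field L] [DecidableEq L] [Algebra k L]
  (W : Affine k)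

theorem bmem (F : IntermediateField k L) : (WL L W).b₂ ∈ F ∧ (WL L W).b₄ ∈ F ∧
    (WL L W).b₆ ∈ F ∧ (WL L W).b₈ ∈ F := by
  refine ⟨?_, ?_, ?_, ?_⟩
  · rw [WeierstrassCurve.map_b₂]
    exact F.algebraMap_mem _
  · rw [WeierstrassCurve.map_b₄]
    exact F.algebraMap_mem _
  · rw [WeierstrassCurve.map_b₆]
    exact F.algebraMap_mem _
  · rw [WeierstrassCurve.map_b₈]
    exact F.algebraMap_mem _

theorem bf_mem (F : IntermediateField k L) {x : L} (hx : x ∈ F) : Bf (WL L W) x ∈ F := by
  obtain ⟨h2, h4, h6, _⟩ := bmem W F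
  unfold Bf
  have n4 : (4 : L) ∈ F := by exact_mod_cast F.natCast_mem 4
  have n2 : (2 : L) ∈ F := by exact_mod_cast F.natCast_mem 2
  exact F.add_mem (F.add_mem (F.add_mem (F.mul_mem n4 (pow_mem hx 3)) (F.mul_mem h2 (pow_mem hx 2)))
    (F.mul_mem (F.mul_mem n2 h4) hx)) h6

variable {W} in
theorem ps_sq' (P : (WL L W).Point) (hP : P ≠ 0) : ps P ^ 2 = Bf (WL L W) (xc P) := by
  cases P with
  | zero => exact absurd rfl hP
  | some x y h => exact Pool.Agent.Helper30.SGB.ps_sq (WL L W) x y h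

theorem ip_of_x (F : IntermediateField k L) (hF : ∀ z : L, IsAlgebraic F z → z ∈ F)
    {P : (WL L W).Point} (hx : xc P ∈ F) : IP (F : Set L) P := by
  by_cases hP : P = 0
  · exact Or.inl hP
  refine Or.inr ⟨hx, ?_⟩
  have h := ps_sq' P hP
  refine quartic F hF (c0 := 0) (c1 := 0) (c2 := -Bf (WL L W) (xc P)) (c3 := 0) F.zero_mem
    F.zero_mem (F.neg_mem (bf_mem W F hx)) F.zero_mem ?_
  linear_combination (ps P) ^ 2 * h

theorem root_bf (F : IntermediateField k L) (hF : ∀ z : L, IsAlgebraic F z → z ∈ F)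
    {x : L} (hx : Bf (WL L W) x = 0) : x ∈ F := by
  have : CharZero L := charZero_of_injective_algebraMap (algebraMap k L).injective
  obtain ⟨h2, h4, h6, _⟩ := bmem W F
  have n4 : (4 : L) ∈ F := by exact_mod_cast F.natCast_mem 4
  have n2 : (2 : L) ∈ F := by exact_mod_cast F.natCast_mem 2
  refine quartic F hF (c0 := 0) (c1 := (WL L W).b₆ / 4) (c2 := 2 * (WL L W).b₄ / 4)
    (c3 := (WL L W).b₂ / 4) F.zero_mem
    (F.div_mem h6 n4) (F.div_mem (F.mul_mem n2 h4) n4) (F.div_mem h2 n4) ?_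
  unfold Bf at hx
  linear_combination x / 4 * hx

theorem two_zero {P : (WL L W).Point} (hP : P ≠ 0) (h : 2 • P = 0) :
    Bf (WL L W) (xc P) = 0 := by
  cases P with
  | zero => exact absurd rfl hP
  | some x y hn =>
    rw [two_nsmul] at h
    have h1 := (Pool.Agent.Helper30.SGB.two_eq_zero (WL L W) x y hn).1 h
    have h2 := Pool.Agent.Helper30.SGB.ps_sq (WL L W) x y hn
    rw [h1] at h2
    simpa using h2.symm

theorem dup' {P : (WL L W).Point} (h : 2 • P ≠ 0) :
    xc (2 • P) * Bf (WL L W) (xc P) = Af (WL L W) (xc P) := by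
  cases P with
  | zero =>
    exfalso
    apply h
    change 2 • (0 : (WL L W).Point) = 0
    rw [smul_zero]
  | some x y hn =>
    rw [two_nsmul] at h ⊢
    refine (Pool.Agent.Helper30.SGB.dup (WL L W) x y hn fun h0 => h ?_).1
    exact (Pool.Agent.Helper30.SGB.two_eq_zero (WL L W) x y hn).2 h0

theorem half (F : IntermediateField k L) (hF : ∀ z : L, IsAlgebraic F z → z ∈ F)
    {P : (WL L W).Point} (hP : P ≠ 0) (h : IP (F : Set L) (2 • P)) : xc P ∈ F := by
  by_cases h2P : 2 • P = 0
  · exact root_bf W F hF (two_zero W hP h2P)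
  rcases h with h | h
  · exact absurd h h2P
  have ht : xc (2 • P) ∈ F := h.1
  have hd := dup' W h2P
  obtain ⟨h2, h4, h6, h8⟩ := bmem W F
  have n4 : (4 : L) ∈ F := by exact_mod_cast F.natCast_mem 4
  have n2 : (2 : L) ∈ F := by exact_mod_cast F.natCast_mem 2
  set T := xc (2 • P) with hT
  refine quartic F hF (c0 := -(WL L W).b₈ - T * (WL L W).b₆)
    (c1 := -(2 * (WL L W).b₆) - T * (2 * (WL L W).b₄))
    (c2 := -(WL L W).b₄ - T * (WL L W).b₂)
    (c3 := -(T * 4)) ?_ ?_ ?_ ?_ ?_
  · exact F.sub_mem (F.neg_mem h8) (F.mul_mem ht h6)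
  · exact F.sub_mem (F.neg_mem (F.mul_mem n2 h6)) (F.mul_mem ht (F.mul_mem n2 h4))
  · exact F.sub_mem (F.neg_mem h4) (F.mul_mem ht h2)
  · exact F.neg_mem (F.mul_mem ht n4)
  · unfold Bf Af at hd
    linear_combination -hd

theorem halves (F : IntermediateField k L) (hF : ∀ z : L, IsAlgebraic F z → z ∈ F) (e : ℕ) :
    ∀ {P : (WL L W).Point}, P ≠ 0 → IP (F : Set L) ((2 ^ e) • P) → xc P ∈ F := by
  induction e with
  | zero =>
    intro P hP h
    rw [pow_zero, one_smul] at h
    rcases h with h | h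
    · exact absurd h hP
    · exact h.1
  | succ e ih =>
    intro P hP h
    rw [pow_succ, mul_smul] at h
    by_cases h2 : 2 • P = 0
    · exact half W F hF hP (Or.inl h2)
    · exact half W F hF hP (ip_of_x W F hF (ih h2 h))

end curve

theorem t (hS : S_SUBF) : S_AIP := by
  intro k L _ _ _ _ _ W _ a b e ha hb hab
  obtain ⟨hxa, hxb⟩ := pair_iff.1 hab
  obtain ⟨hxb', hxa'⟩ := pair_iff.1 (pair_swap hab)
  set w := (2 ^ e) • a - b with hw
  set F := clo k (xc a) with hFd
  have hF : ∀ z : L, IsAlgebraic F z → z ∈ F := fun z hz => clo_closed hz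
  have ipa : IP (F : Set L) a := ip_of_x W F hF (self_clo _)
  have ipea : IP (F : Set L) ((2 ^ e) • a) := (hS k L W F a a ipa ipa).2.2.2 (2 ^ e)
  have nb : ¬ IP (F : Set L) b := by
    rintro (h | h)
    · exact hb h
    · exact hxb h.1
  have nw : ¬ IP (F : Set L) w := by
    intro h
    apply nb
    have h1 := (hS k L W F _ _ ipea h).2.1
    rw [hw, sub_sub_cancel] at h1
    exact h1
  have nxw : xc w ∉ F := fun h => nw (ip_of_x W F hF h)
  have w0 : w ≠ 0 := fun h => nw (Or.inl h)
  refine ⟨w0, ?_, ?_, ?_, ?_⟩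
  · intro h
    apply nb
    have h1 : b = -((2 ^ e) • a) := by
      rw [eq_neg_iff_add_eq_zero, add_comm]
      exact h
    rw [h1]
    exact (hS k L W F _ _ ipea ipea).2.2.1
  · intro h
    exact nxw (root_bf W F hF (two_zero W w0 h))
  · exact pair_iff.2 ⟨hxa, nxw⟩
  · refine pair_iff.2 ⟨hxb', fun h => hxa' ?_⟩
    set G := clo k (xc b) with hGd
    have hG : ∀ z : L, IsAlgebraic G z → z ∈ G := fun z hz => clo_closed hz
    have ipb : IP (G : Set L) b := ip_of_x W G hG (self_clo _)
    have ipw : IP (G : Set L) w := ip_of_x W G hG h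
    have h1 := (hS k L W G _ _ ipw ipb).1
    rw [hw, sub_add_cancel] at h1
    exact halves W G hG e ha h1

end Pool.Agent.Helper14.T3.AIP
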